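import Pool.Agent.E8helper90.ND.Cf

/-!
# Entire curves given by iterated linear differential equations grow no faster than their coefficients

Consider a projective variety `X` and a Zariski-dense entire curve `f` in `X` which is given by
iterated linear differential equations: the coefficients of the equations are arbitrary meromorphic
functions, or solutions of linear equations with such coefficients, and so on. If `X` has a nonzero
pluricanonical form, for instance if `X` is of general type, then the order function of `f` is
bounded by a multiple of the sum of the Nevanlinna characteristics of the initial coefficients and of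
`log r`, outside a set of finite measure. The proof uses the lemma on the logarithmic derivative,
which is proved in the files `ND/Borel`, `ND/LogA`, `ND/LogB`, `ND/LogC`, `ND/LogD`.
-/

set_option autoImplicit false

namespace Pool.Agent.Results.MP_2a5ae2_ag.CoefficientGrowthH90

open MeasureTheory Filter MvPolynomial ValueDistribution
open scoped LinearAlgebra.Projectivization
open Pool.Agent.TH143.EL (HolMap InV)
open Pool.Agent.TH143.GT (Covered FunField Pluricanonical)
open Pool.Agent.W602.GT (IsForm GeneralType)
open Pool.Agent.Y377.IL (IteratedOver form_of_gt)
open Pool.Agent.E8helper90.ND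

variable {N : ℕ}

/-- all forms that vanish on the curve `f` belong to the ideal `p` -/
def ZariskiDense (p : Ideal (MvPolynomial (Fin (N + 1)) ℂ)) (f : ℂ → ℙ ℂ (Fin (N + 1) → ℂ)) :
    Prop :=
  ∀ G : MvPolynomial (Fin (N + 1)) ℂ, IsForm G → (∀ z, eval (f z).rep G = 0) → G ∈ p

/-- The varieties with the function field `E` are covered by rational curves, and all their
pluricanonical forms vanish. -/
def Uniruled (E : Type) [Field E] [Algebra ℂ E] : Prop :=
  Covered E ∧ ∀ v : ℕ, 0 < v → Algebra.trdeg ℂ E = v → ∀ n : ℕ, 0 < n →
    ∀ ω : (Fin v → Derivation ℂ E E) → E, Pluricanonical v n ω → ω = 0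

/-- Let `X` be the projective variety with the ideal `p`, the function field `K`, the generic point
`y` and the dimension `w`, and let `f` be a Zariski-dense entire curve in `X`. The images of `X`
correspond to the fields `E` between `ℂ` and `K`.

(1) Let `G` be a class of growth, for instance the class of the functions which are `O(φ)` outside
a set of finite measure, for a function `φ` which is at least `log r + 1`. Let `f` be given by
iterated linear differential equations over the ring of all meromorphic functions on the plane whose
Nevanlinna characteristic is in `G`. Every image of `X` is covered by rational curves and has no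
pluricanonical forms, or the Nevanlinna characteristics of all the rational functions on the image
along `f` are in `G`. If `X` has a nonzero pluricanonical form, for instance if `X` is of general
type, then the order function of `f` is in `G`.

(2) Let `f` be given by iterated linear differential equations over the ring generated by meromorphic
functions `a_1, …, a_m` and their derivatives, and let `X` have a nonzero pluricanonical form. Then
the order function of `f` is at most `C (T(r, a_1) + … + T(r, a_m) + log r + 1)` outside a set of
finite measure. -/
theorem result (p : Ideal (MvPolynomial (Fin (N + 1)) ℂ)) (K : Type) [Field K] [Algebra ℂ K]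
    (w : ℕ) (y : Fin (N + 1) → K) (hy : FunField p 1 K w y) (f : ℂ → ℙ ℂ (Fin (N + 1) → ℂ))
    (hf : HolMap f) (hX : ∀ z, InV p (f z)) (hd : ZariskiDense p f) :
    (∀ G : GrowthClass, IteratedOver G.ring f →
      (∀ E : IntermediateField ℂ K, GrowthAlong G y f E ∨ Uniruled E) ∧
      ((GeneralType ℂ K w ∨ ∃ n : ℕ, 0 < n ∧ ∃ ω : (Fin w → Derivation ℂ K K) → K,
        Pluricanonical w n ω ∧ ω ≠ 0) → G.mem (order f))) ∧
    (∀ (m : ℕ) (a : Fin m → ℂ → ℂ), (∀ k, Meromorphic (a k)) → IteratedOver (diffAlg a) f →
      (GeneralType ℂ K w ∨ ∃ n : ℕ, 0 < n ∧ ∃ ω : (Fin w → Derivation ℂ K K) → K,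
        Pluricanonical w n ω ∧ ω ≠ 0) →
      ∃ (C : ℝ) (S : Set ℝ), volume S < ⊤ ∧ ∀ r, 1 ≤ r → r ∉ S →
        order f r ≤ C * (∑ k, characteristic (a k) ⊤ r + Real.log r + 1)) := by
  have key : ∀ G : GrowthClass, IteratedOver G.ring f →
      (GeneralType ℂ K w ∨ ∃ n : ℕ, 0 < n ∧ ∃ ω : (Fin w → Derivation ℂ K K) → K,
        Pluricanonical w n ω ∧ ω ≠ 0) → G.mem (order f) := by
    intro G hl h
    rcases h with h | h
    · exact form_growth hy hf hX hd G hl (form_of_gt h)
    · exact form_growth hy hf hX hd G hl h
  refine ⟨fun G hl => ⟨fun E => images_growth hy hf hX hd G hl E, key G hl⟩,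
    fun m a ha hl h => ?_⟩
  exact key (bigO (coefSize a) (coefSize_ge a)) (iteratedOver_mono (diffAlg_le ha) hl) h

end Pool.Agent.Results.MP_2a5ae2_ag.CoefficientGrowthH90
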