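import Pool.Agent.E8helper4.EL.Spec

/-!
# Elementary entire curves

An entire curve in a projective variety `X` is called elementary if, near some point, it has
homogeneous coordinates which are elementary functions (built from the constants and `z` by
addition, multiplication, division and exponentials, in any order), or which are built from such
functions by addition, multiplication, division and integration. We show that `X` contains a
Zariski-dense elementary entire curve if and only if `X` is unirational.
-/

set_option autoImplicit false

namespace Pool.Agent.Results.MP_2a5ae2_ag.ElementaryCurvesH4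

open Filter MvPolynomial
open scoped LinearAlgebra.Projectivization
open Pool.Agent.TH143.EL (HolMap InV Rep)
open Pool.Agent.TH143.GT (Covered FunField Pluricanonical)
open Pool.Agent.W602.GT (GeneralType)
open Pool.Agent.E8helper4.EL

variable {N : ℕ}

/-- The varieties with the function field `E` are covered by rational curves, and all their
pluricanonical forms vanish. -/
def Uniruled (E : Type) [Field E] [Algebra ℂ E] : Prop :=
  Covered E ∧ ∀ v : ℕ, 0 < v → Algebra.trdeg ℂ E = v → ∀ n : ℕ, 0 < n →
    ∀ ω : (Fin v → Derivation ℂ E E) → E, Pluricanonical v n ω → ω = 0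

/-- Let `X` be the projective variety with the ideal `p`, the function field `K`, the generic point
`y` and the dimension `w`.

(1) `X` contains a Zariski-dense elementary entire curve if and only if `X` is unirational.

(2) If `X` is unirational, then it contains a Zariski-dense entire curve whose homogeneous
coordinates are polynomials in `z`, `exp z`, `exp (exp z)`, ...

(3) If `w` is positive and `X` contains a Zariski-dense elementary entire curve, then `X` is covered
by rational curves, it has no nonzero pluricanonical forms, and it is not of general type. -/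
theorem result (p : Ideal (MvPolynomial (Fin (N + 1)) ℂ)) (K : Type) [Field K] [Algebra ℂ K]
    (w : ℕ) (y : Fin (N + 1) → K) (hy : FunField p 1 K w y) :
    ((∃ f : ℂ → ℙ ℂ (Fin (N + 1) → ℂ), HolMap f ∧ (∀ z, InV p (f z)) ∧ ZariskiDense p f ∧
      Elementary f) ↔ Unirational K) ∧
    (Unirational K → ∃ f : ℂ → ℙ ℂ (Fin (N + 1) → ℂ), HolMap f ∧ (∀ z, InV p (f z)) ∧
      ZariskiDense p f ∧ ∃ (n : ℕ) (P : Fin (N + 1) → MvPolynomial (Fin n) ℂ),
        ∀ᶠ z in codiscrete ℂ, Rep (f z) fun j => eval (fun i : Fin n => iterExp i z) (P j)) ∧
    (0 < w → (∃ f : ℂ → ℙ ℂ (Fin (N + 1) → ℂ), HolMap f ∧ (∀ z, InV p (f z)) ∧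
      ZariskiDense p f ∧ Elementary f) → Uniruled K ∧ ¬ GeneralType ℂ K w) := by
  have h1 : (∃ f : ℂ → ℙ ℂ (Fin (N + 1) → ℂ), HolMap f ∧ (∀ z, InV p (f z)) ∧ ZariskiDense p f ∧
      Elementary f) ↔ Unirational K := by
    constructor
    · rintro ⟨f, hf, hX, hd, hel⟩
      exact unirational_of_curve hy hf hX hd hel
    · intro hU
      obtain ⟨f, hf, hX, hd, n, P, hP⟩ := exists_curve hy hU
      exact ⟨f, hf, hX, hd, elementary_of_rep hP⟩
  refine ⟨h1, exists_curve hy, fun hw hc => ?_⟩
  have hU := h1.1 hc
  refine ⟨⟨covered_of_unirational hw hy.sub.dim hU, fun v _ hv => ?_⟩, (no_forms hy hw hU).2⟩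
  have h3 : v = w := by
    have h4 := hy.sub.dim
    rw [hv] at h4
    exact_mod_cast h4
  subst h3
  exact (no_forms hy hw hU).1

end Pool.Agent.Results.MP_2a5ae2_ag.ElementaryCurvesH4
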