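import Pool.Agent.E8helper90.RM.Main

/-!
# The inflection points of entire curves

Let `X` be a projective variety in the projective space of dimension `N` which has a nonzero
pluricanonical form, for instance a variety of general type. The conjecture of Green, Griffiths and
Lang says that no entire curve in a variety of general type is Zariski-dense. We prove that each
Zariski-dense entire curve in `X` must have many inflection points: its order function is at most a
multiple of the sum of `log r + 1` and the counting function of the distinct inflection points,
outside a set of finite measure. Here a point of the curve is an inflection point if some hyperplane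
meets the curve there with multiplicity at least `N + 1`. The same is true for every entire curve in
a projective algebraic set, if the curve is not contained in the closed set swept out by the rational
curves. No differential equation is assumed for the curve.
-/

set_option autoImplicit false

namespace Pool.Agent.Results.MP_2a5ae2_ag.InflectionPointsH90

open MeasureTheory Filter MvPolynomial
open scoped LinearAlgebra.Projectivization
open Pool.Agent.TH143.EL (HolMap InV)
open Pool.Agent.TH143.HE (RatCurvesIn)
open Pool.Agent.TH143.GT (Covered FunField Pluricanonical)
open Pool.Agent.W602.GT (IsForm GeneralType)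
open Pool.Agent.Y377.IL (not_gt gen_K)
open Pool.Agent.E8helper90.ND
open Pool.Agent.E8helper90.RM (Inflection extClass iterated_ext bound_of_ext exists_divisor)

variable {N : ℕ}

/-- all forms that vanish on the curve `f` belong to the ideal `p` -/
def ZariskiDense (p : Ideal (MvPolynomial (Fin (N + 1)) ℂ)) (f : ℂ → ℙ ℂ (Fin (N + 1) → ℂ)) :
    Prop :=
  ∀ G : MvPolynomial (Fin (N + 1)) ℂ, IsForm G → (∀ z, eval (f z).rep G = 0) → G ∈ p

/-- The order function of `f` is at most `C (N(r, D) + log r + 1)` outside a set of finite measure,
where `N(r, D)` is the logarithmic counting function of the divisor `D` on the plane. -/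
def BoundedBy (f : ℂ → ℙ ℂ (Fin (N + 1) → ℂ))
    (D : Function.locallyFinsuppWithin (Set.univ : Set ℂ) ℤ) : Prop :=
  ∃ (C : ℝ) (S : Set ℝ), volume S < ⊤ ∧ ∀ r, 1 ≤ r → r ∉ S →
    order f r ≤ C * (Function.locallyFinsuppWithin.logCounting D r + Real.log r + 1)

/-- Let `f` be an entire curve in the projective space of dimension `N` which is not contained in a
hyperplane. The inflection points of `f` form a discrete closed set. Let `D` be the divisor in which
each inflection point has the multiplicity one.

(1) Let `X` be a projective variety in which `f` is Zariski-dense, with the ideal `p`, the function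
field `K`, the generic point `y` and the dimension `w`. Then `X` is covered by rational curves, has
no nonzero pluricanonical forms and is not of general type, or the order function of `f` is at most
`C (N(r, D) + log r + 1)` outside a set of finite measure.

(2) Let `X` and `Z` be the projective algebraic sets of the homogeneous elements of `I` and `J` such
that all nonconstant rational curves in `X` lie in `Z`. If `f` lies in `X`, then `f` lies in `Z`, or
the order function of `f` is at most `C (N(r, D) + log r + 1)` outside a set of finite measure. -/
theorem result (f : ℂ → ℙ ℂ (Fin (N + 1) → ℂ)) (hf : HolMap f)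
    (hn : ∀ c : Fin (N + 1) → ℂ, (∀ z, ∑ j, c j * (f z).rep j = 0) → c = 0) :
    ∃ D : Function.locallyFinsuppWithin (Set.univ : Set ℂ) ℤ,
      (∀ z, (Inflection f z → D z = 1) ∧ (¬ Inflection f z → D z = 0)) ∧
      (∀ (p : Ideal (MvPolynomial (Fin (N + 1)) ℂ)) (K : Type) [Field K] [Algebra ℂ K] (w : ℕ)
        (y : Fin (N + 1) → K), FunField p 1 K w y → (∀ z, InV p (f z)) → ZariskiDense p f →
        (Covered K ∧ (∀ n : ℕ, 0 < n → ∀ ω : (Fin w → Derivation ℂ K K) → K,
          Pluricanonical w n ω → ω = 0) ∧ ¬ GeneralType ℂ K w) ∨ BoundedBy f D) ∧
      ∀ I J : Ideal (MvPolynomial (Fin (N + 1)) ℂ), RatCurvesIn (RingHom.id ℂ) I J →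
        (∀ z, InV I (f z)) → (∀ z, InV J (f z)) ∨ BoundedBy f D := by
  classical
  obtain ⟨D, hD⟩ := exists_divisor hf hn
  have hD0 : 0 ≤ D := by
    intro z
    by_cases h : Inflection f z
    · rw [(hD z).1 h]
      exact zero_le_one
    · rw [(hD z).2 h]
      exact le_rfl
  have hit := iterated_ext hf hn hD0 fun z h => by
    rw [(hD z).1 h]
    exact one_ne_zero
  refine ⟨D, hD, fun p K _ _ w y hy hX hd => ?_, fun I J hR hI => ?_⟩
  · rcases gen_K hy hf hX hd (db_ring _) hit with h1 | ⟨h1, h2⟩
    · exact Or.inr (bound_of_ext hD0 (order_mem hf h1))
    · exact Or.inl ⟨h1, h2, not_gt h2⟩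
  · rcases dich_growth hR hf hI _ hit with h1 | h1
    · exact Or.inl h1
    · exact Or.inr (bound_of_ext hD0 h1)

end Pool.Agent.Results.MP_2a5ae2_ag.InflectionPointsH90
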