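import Mathlib
import Pool.Agent.E8helper36.DQ.Qsh

/-!
MP_2a5ae2_ag, Q1: Zariski-dense holomorphic curves given by linear difference equations in
projective varieties which are not covered by rational curves are periodic.
-/

set_option autoImplicit false

namespace Pool.Agent.Results.MP_2a5ae2_ag.PeriodicDifferenceCurvesH36

open MvPolynomial Set FF
open Pool.Agent.W602.GT Pool.Agent.TH143.GT Pool.Agent.TH143.DE Pool.Agent.TH143.TW
  Pool.Agent.W603.BPR Pool.Agent.E8helper36.DQ

/-- Let `X` be the projective variety with the ideal `p`, the function field `K` and the generic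
point `y`. Assume that `X` is not covered by rational curves or that `X` has a nonzero pluricanonical
form (this is the case if `X` is of general type).

(1) Let `σ` be a holomorphic map from a domain `Ω` to itself, not constant, and let `f` be a
Zariski-dense holomorphic map from `Ω` to `X` such that for almost all `z` (with countably many
exceptions) the homogeneous coordinates of `f (z), f (σ (z)), f (σ^2 (z)), ...` satisfy nontrivial
linear recurrences whose coefficients are in a field that one gets from the constants by finitely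
many steps, in each of which one adjoins finitely many sequences satisfying linear recurrences over
the previous field. Then `f ∘ σ^m = f` for some `m > 0`.

(2) Let `f` be a Zariski-dense entire curve in `X` whose coordinates satisfy linear difference
equations `∑ a_k (z) g (z + k c) = 0` with polynomial coefficients, where `c` is not zero. Then `f`
has the period `m c` for some positive integer `m`, the coordinates are not all of exponential type,
and if the dimension of `X` is not `1` then for no `c'` such that `c` and `c'` are independent over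
the rational numbers all the coordinates satisfy such equations with the step `c'`.

(3) If the dimension of `X` is more than `1` and `q` is not zero and not a root of unity then there
is no Zariski-dense holomorphic map from the punctured plane to `X` whose coordinates satisfy linear
`q`-difference equations `∑ a_k (z) g (q^k z) = 0` with polynomial coefficients. -/
theorem result {n : ℕ} (p : Ideal (MvPolynomial (Fin (n + 1)) ℂ)) (K : Type) [Field K]
    [Algebra ℂ K] (w : ℕ) (y : Fin (n + 1) → K) (hy : FunField p 1 K w y) :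
    ((¬ Covered K ∨ ∃ N, 0 < N ∧ ∃ ω : (Fin w → Derivation ℂ K K) → K,
        Pluricanonical w N ω ∧ ω ≠ 0) →
      (∀ (Ω : Set ℂ) (σ : ℂ → ℂ), Dyn Ω σ → ∀ f : ℂ → Fin (n + 1) → ℂ,
        (∀ j, AnalyticOnNhd ℂ (fun z => f z j) Ω) → (∀ z ∈ Ω, ∀ H ∈ p, eval (f z) H = 0) →
        ZDense p f Ω → ∀ C : Set ℂ, C.Countable →
        (∀ z ∈ Ω, z ∉ C → ∃ B, Tow B ∧ ∀ j, LinRec B fun m => f (σ^[m] z) j) →
        ∃ m : ℕ, 0 < m ∧ ∀ z ∈ Ω, Par (f (σ^[m] z)) (f z)) ∧
      (∀ f, EntireCurve p 1 f → ZDense p f univ → ∀ c : ℂ, c ≠ 0 →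
        (∀ j, ShEq c (fun z => f z j)) →
        (∃ m : ℕ, 0 < m ∧ ∀ z, Par (f (z + m * c)) (f z)) ∧
        (¬ ∀ j, (fun z => f z j) ∈ expT) ∧
        (w ≠ 1 → ∀ c' : ℂ, (∀ a b : ℤ, (a : ℂ) * c + b * c' = 0 → a = 0 ∧ b = 0) →
          ¬ ∀ j, ShEq c' (fun z => f z j))) ∧
      (1 < w → ∀ q : ℂ, q ≠ 0 → (∀ m : ℕ, 0 < m → q ^ m ≠ 1) → ∀ f : ℂ → Fin (n + 1) → ℂ,
        (∀ j, AnalyticOnNhd ℂ (fun z => f z j) {0}ᶜ) → (∀ z, z ≠ 0 → f z ∈ PtsP p 1) →
        ZDense p f {0}ᶜ → ¬ ∀ j, QEq q (fun z => f z j))) ∧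
    (GeneralType ℂ K w →
      ∃ N, 0 < N ∧ ∃ ω : (Fin w → Derivation ℂ K K) → K, Pluricanonical w N ω ∧ ω ≠ 0) := by
  refine ⟨fun hX => ?_, ?_⟩
  · have hno : ¬ ∃ r : K, ¬ AllFlat 1 y r := by
      rintro ⟨r, hr⟩
      rcases hX with h | ⟨N, hN, ω, hω, hω0⟩
      · exact h (covered' hy hr)
      · exact hω0 (sec_zero' hy hr hN hω)
    refine ⟨fun Ω σ h f hf hXz hd C hC hrec => ?_, fun f hf hd c hc hfe => ⟨?_, ?_, ?_⟩,
      fun hw q hq hqr f hf hXz hd hfe => ?_⟩
    · exact (periodic hy h hf hXz hd hC hrec).resolve_left hno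
    · exact (sh_case hy (ent_data hf).1 (fun z => (hf.2.1 z).2.1) hd hc hfe).resolve_left hno
    · intro hexp
      obtain ⟨z, t, hzt⟩ := hf.2.2
      exact hno (exp_case' hy (w_pos hy (fun z => (hf.2.1 z).1) (fun z => (hf.2.1 z).2.1) hd hzt)
        hexp (fun z => (hf.2.1 z).2.1) hd hc hfe)
    · intro hw c' hcc hfe'
      obtain ⟨z, t, hzt⟩ := hf.2.2
      have hw1 := w_pos hy (fun z => (hf.2.1 z).1) (fun z => (hf.2.1 z).2.1) hd hzt
      exact hno (two_case hy (by omega) (ent_data hf).1 (fun z => (hf.2.1 z).1)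
        (fun z => (hf.2.1 z).2.1) hd hcc hfe hfe')
    · exact hno (q_case hy hq hqr hw hf hXz hfe hd)
  · rintro ⟨-, N, hN, ω, hpl, hreg, D, hD0, -⟩
    exact ⟨N, hN, ω 0, ⟨hpl 0, fun P hP => hreg P hP 0⟩, fun h => hD0 (by rw [h]; rfl)⟩

end Pool.Agent.Results.MP_2a5ae2_ag.PeriodicDifferenceCurvesH36
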